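import Pool.Agent.Q145.LQ.Stm
import Pool.Agent.H398R2.BV1

/-!
# Project LQ, job TAU: divisor sums over small sets
-/

set_option autoImplicit false

namespace Pool.Agent.Q145.LQ

open Finset

/-- JOB TAU -/
theorem t_TAU : S_TAU := by
  refine ⟨3, by norm_num, fun Z D hZ hD => ?_⟩
  have hZr : (3 : ℝ) ≤ Z := by exact_mod_cast hZ
  have hL : 1 ≤ Real.log Z := by
    rw [Real.le_log_iff_exp_le (by linarith)]
    have := Real.exp_one_lt_d9
    linarith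
  have h1 : (∑ h ∈ D, (h.divisors.card : ℝ)) ^ 2 ≤
      (D.card : ℝ) * ∑ h ∈ D, (h.divisors.card : ℝ) ^ 2 := sq_sum_le_card_mul_sum_sq
  have h2 : ∑ h ∈ D, (h.divisors.card : ℝ) ^ 2 ≤ ∑ h ∈ Icc 1 Z, (h.divisors.card : ℝ) ^ 2 :=
    sum_le_sum_of_subset_of_nonneg hD fun _ _ _ => by positivity
  have h3 := Pool.Agent.H398R2.BV.sum_card_div_sq Z
  have h4 : (1 + Real.log Z) ^ 3 ≤ 9 * Real.log Z ^ 4 := by
    have e1 : (1 + Real.log Z) ^ 3 ≤ (2 * Real.log Z) ^ 3 :=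
      pow_le_pow_left₀ (by linarith) (by linarith) 3
    have e2 : Real.log Z ^ 3 ≤ Real.log Z ^ 4 := pow_le_pow_right₀ hL (by norm_num)
    have e3 : 0 ≤ Real.log Z ^ 3 := by positivity
    nlinarith
  have h5 : (∑ h ∈ D, (h.divisors.card : ℝ)) ^ 2 ≤ (D.card : ℝ) * (Z * (9 * Real.log Z ^ 4)) := by
    refine h1.trans (mul_le_mul_of_nonneg_left ?_ (Nat.cast_nonneg _))
    exact (h2.trans h3).trans (mul_le_mul_of_nonneg_left h4 (Nat.cast_nonneg _))
  have h6 : (3 * √((D.card : ℝ) * Z) * Real.log Z ^ 2) ^ 2 =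
      (D.card : ℝ) * (Z * (9 * Real.log Z ^ 4)) := by
    rw [mul_pow, mul_pow, Real.sq_sqrt (by positivity)]
    ring
  exact le_of_sq_le_sq (by rw [h6]; exact h5) (by positivity)

end Pool.Agent.Q145.LQ
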