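import Pool.Agent.Q145.LQ.Stm2

/-!
# Project LQ, job WCBQ: the weighted count and the count
-/

set_option autoImplicit false

namespace Pool.Agent.Q145.LQ

open Finset
open Pool.Agent.Q145.SZ

/-- JOB WCBQ -/
theorem t_WCBQ : S_WCBQ := by
  classical
  intro d z Y X K H q s hX hS hs
  have hH3 : ∀ i, 3 ≤ H i := fun i => hX.trans (hS.scale i).1
  have hH : ∀ i, (3 : ℝ) ≤ (H i : ℝ) := fun i => by exact_mod_cast hH3 i
  have hv : ∀ n ∈ Ioc Y (2 * Y), ∀ i, H i ≤ vq (q i) n + s i ∧ vq (q i) n + s i ≤ 3 * H i := by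
    intro n hn i
    have h1 := hS.val i n hn
    have h2 := mem_Icc.1 (hs i)
    have h3 := hH3 i
    unfold vq
    have h4 : 0 ≤ (q i).eval (n : ℤ) := by omega
    have h5 : (((q i).eval (n : ℤ)).toNat : ℤ) = (q i).eval (n : ℤ) := Int.toNat_of_nonneg h4
    omega
  have key : ∀ n ∈ Ioc Y (2 * Y),
      (if ∀ i, (vq (q i) n + s i).Prime then ∏ i, Real.log (H i) else 0) ≤
        ∏ i, wt (vq (q i) n + s i) ∧
      ∏ i, wt (vq (q i) n + s i) ≤
        (if ∀ i, (vq (q i) n + s i).Prime then ∏ i, Real.log (3 * H i) else 0) := by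
    intro n hn
    have hb := hv n hn
    split_ifs with h
    · have hc : ∏ i, wt (vq (q i) n + s i) = ∏ i, Real.log ((vq (q i) n + s i : ℕ) : ℝ) :=
        prod_congr rfl fun i _ => by
          unfold wt
          rw [if_pos (h i)]
      rw [hc]
      have hv1 : ∀ i, (H i : ℝ) ≤ ((vq (q i) n + s i : ℕ) : ℝ) := fun i => by
        exact_mod_cast (hb i).1
      have hv2 : ∀ i, ((vq (q i) n + s i : ℕ) : ℝ) ≤ 3 * (H i : ℝ) := fun i => by
        exact_mod_cast (hb i).2
      constructor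
      · exact prod_le_prod (fun i _ => Real.log_nonneg (by linarith [hH i])) fun i _ =>
          Real.log_le_log (by linarith [hH i]) (hv1 i)
      · exact prod_le_prod (fun i _ => Real.log_natCast_nonneg _) fun i _ =>
          Real.log_le_log (by linarith [hH i, hv1 i]) (hv2 i)
    · push Not at h
      obtain ⟨i, hi⟩ := h
      have : ∏ i, wt (vq (q i) n + s i) = 0 :=
        prod_eq_zero (mem_univ i) (by unfold wt; rw [if_neg hi])
      rw [this]
      exact ⟨le_rfl, le_rfl⟩
  have e : ∀ x : ℝ, (cntQ Y q s : ℝ) * x = ∑ n ∈ Ioc Y (2 * Y),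
      (if ∀ i, (vq (q i) n + s i).Prime then x else 0) := by
    intro x
    unfold cntQ
    rw [← sum_filter, sum_const, nsmul_eq_mul]
  rw [e, e]
  unfold wcQ
  exact ⟨sum_le_sum fun n hn => (key n hn).1, sum_le_sum fun n hn => (key n hn).2⟩

end Pool.Agent.Q145.LQ
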